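import Pool.Agent.Helper70K9.Cry.YUp
import Pool.Agent.Helper70K9.Cry.Term

/-!
# Short chords after random crystallization of chord diagrams (MP_9a6fac)

The number `X_n` of short chords at the end of the crystallization process and the number `Y_n` of
short chords of a uniform crystallized diagram do not have the same asymptotic distribution:
`X_n > √n / 10` and `Y_n ≤ √n / 20` with probability tending to one. Hence for every normalisation
for which `(Y_n - a_n) / b_n` tends to the standard normal law, `(X_n - a_n) / b_n` tends to `+∞` in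
probability.

The bound for `X_n`: what is learnt in the course of the process is that some pairs of vertices are
matched and some are not. The quantity `θ ^ (pairs known to be matched) * (1 - θ) ^ (pairs known not
to be matched)` is preserved on average when a pair is examined and does not change when two ends
are exchanged, and for `θ` of order `1 / n` it controls the probability that the uniform diagram
subject to what is known has no chord inside a bubble.
-/

namespace Pool.Agent.Results.MP_9a6fac_co.DifferentLaws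

open Finset Filter Topology Pool.Agent.Helper70K9.Cry

/-- `P(T < ∞, X_n ≤ y)`. -/
noncomputable def cdfX (n : ℕ) (y : ℝ) : ℝ :=
  (reach n {M | Crystallized M ∧ (short M : ℝ) ≤ y}).toReal

open Classical in
/-- `P(Y_n ≤ y)`: the proportion of the crystallized diagrams with at most `y` short chords. -/
noncomputable def cdfY (n : ℕ) (y : ℝ) : ℝ :=
  ((univ.filter (fun M : Mat (Fin (2 * n)) => Crystallized M ∧ (short M : ℝ) ≤ y)).card : ℝ) /
    ((univ.filter (fun M : Mat (Fin (2 * n)) => Crystallized M)).card : ℝ)

lemma cdfX_mono (n : ℕ) {y z : ℝ} (h : y ≤ z) : cdfX n y ≤ cdfX n z := by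
  unfold cdfX
  apply ENNReal.toReal_mono
  · refine ne_top_of_le_ne_top ENNReal.one_ne_top ?_
    rw [← reach_cryst n]
    unfold reach
    apply iSup_mono
    intro t
    apply MeasureTheory.OuterMeasure.mono
    intro M hM
    exact hM.1
  · unfold reach
    apply iSup_mono
    intro t
    apply MeasureTheory.OuterMeasure.mono
    intro M hM
    exact ⟨hM.1, hM.2.trans h⟩

lemma cdfX_nonneg (n : ℕ) (y : ℝ) : 0 ≤ cdfX n y := ENNReal.toReal_nonneg

lemma cdfY_mono (n : ℕ) {y z : ℝ} (h : y ≤ z) : cdfY n y ≤ cdfY n z := by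
  classical
  unfold cdfY
  apply div_le_div_of_nonneg_right _ (Nat.cast_nonneg _)
  refine Nat.cast_le.2 (card_le_card fun M hM => ?_)
  rw [mem_filter] at hM ⊢
  exact ⟨hM.1, hM.2.1, hM.2.2.trans h⟩

lemma cdfY_le_one (n : ℕ) (y : ℝ) : cdfY n y ≤ 1 := by
  classical
  unfold cdfY
  apply div_le_one_of_le₀ _ (Nat.cast_nonneg _)
  refine Nat.cast_le.2 (card_le_card fun M hM => ?_)
  rw [mem_filter] at hM ⊢
  exact ⟨hM.1, hM.2.1⟩

lemma sqrt_tendsto : Tendsto (fun n : ℕ => Real.sqrt n) atTop atTop :=
  Real.tendsto_sqrt_atTop.comp tendsto_natCast_atTop_atTop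

lemma cdfX_tendsto : Tendsto (fun n : ℕ => cdfX n (Real.sqrt n / 10)) atTop (𝓝 0) := by
  have hlim : Tendsto (fun n : ℕ => Real.exp (1 / 8 - Real.sqrt n / 3)) atTop (𝓝 0) := by
    refine Real.tendsto_exp_atBot.comp ?_
    have h1 : Tendsto (fun n : ℕ => Real.sqrt n / 3) atTop atTop :=
      sqrt_tendsto.atTop_div_const (by norm_num)
    have h2 := (tendsto_neg_atTop_atBot.comp h1)
    have h3 := tendsto_atBot_add_const_left atTop (1 / 8 : ℝ) h2
    refine h3.congr fun n => ?_
    simp only [Function.comp_apply]
    ring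
  refine squeeze_zero' (Eventually.of_forall fun n => cdfX_nonneg n _) ?_ hlim
  filter_upwards [sqrt_tendsto.eventually_ge_atTop 10] with n hn
  set s := Real.sqrt n with hs
  have hns : (n : ℝ) = s ^ 2 := by rw [hs, Real.sq_sqrt (Nat.cast_nonneg _)]
  have hn0 : 0 < n := by
    have : (0 : ℝ) < n := by
      rw [hns]
      positivity
    exact_mod_cast this
  have h1 := reach_le hn0 (x := s / 10) (by positivity) (by
    rw [hns]
    nlinarith)
  have h2 : cdfX n (s / 10) ≤ bnd n (s / 10) := by
    unfold cdfX
    exact ENNReal.toReal_le_of_le_ofReal (Real.exp_pos _).le h1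
  refine h2.trans ?_
  unfold bnd
  apply Real.exp_le_exp.2
  have h3 : 5 * s ≤ n / (s / 10 + 1) := by
    rw [le_div_iff₀ (by positivity), hns]
    nlinarith
  linarith

lemma cdfY_ge {n : ℕ} (hL : 51320 ≤ Real.log (Real.sqrt n)) :
    1 - Real.exp (8 - Real.sqrt n) ≤ cdfY n (Real.sqrt n / 20) := by
  classical
  set s := Real.sqrt n with hs
  have hs0 : 0 ≤ s := Real.sqrt_nonneg _
  have hspos : 0 < s := by
    rcases hs0.lt_or_eq with h | h
    · exact h
    · rw [← h, Real.log_zero] at hL
      norm_num at hL
  have hsL : Real.log s ≤ s - 1 := Real.log_le_sub_one_of_pos hspos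
  have hs2 : 51320 ≤ s := by linarith
  have hn : (n : ℝ) = s ^ 2 := by
    rw [hs, Real.sq_sqrt (Nat.cast_nonneg _)]
  set k := ⌊s / 20⌋₊ + 1 with hk
  set p := ⌈160 * s⌉₊ with hp
  have hp1 : 160 * s ≤ p := Nat.le_ceil _
  have hp2 : (p : ℝ) ≤ 160 * s + 1 := (Nat.ceil_lt_add_one (by positivity)).le
  have hp8 : 8 ≤ p := by
    have : (8 : ℝ) ≤ p := by linarith
    exact_mod_cast this
  have hpn : 8 * p ≤ n := by
    have : (8 : ℝ) * p ≤ n := by
      rw [hn]
      nlinarith
    exact_mod_cast this
  have hkn : 2 * k ≤ n := by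
    have h1 : (k : ℝ) ≤ s / 20 + 1 := by
      rw [hk]
      push_cast
      have := Nat.floor_le (show 0 ≤ s / 20 by positivity)
      linarith
    have : (2 : ℝ) * k ≤ n := by
      rw [hn]
      nlinarith
    exact_mod_cast this
  have h1 := y_tail hp8 hpn hkn
  have h2 := ratio_le hL
  rw [← hs, ← hk, ← hp] at h2
  have hcr := cryst_ge hp8 hpn
  have hpos : (0 : ℝ) < ((crystSet n).card : ℝ) := by
    rcases (Nat.cast_nonneg (α := ℝ) (crystSet n).card).lt_or_eq with h | h
    · exact h
    · rw [← h, mul_zero] at hcr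
      exact absurd hcr (not_le.2 (df_pos _))
  have h3 : (((crystSet n).filter (fun M => k ≤ short M)).card : ℝ) ≤
      Real.exp (8 - s) * (crystSet n).card :=
    h1.trans (mul_le_mul_of_nonneg_right h2 (Nat.cast_nonneg _))
  have h4 : (univ.filter (fun M : Mat (Fin (2 * n)) => Crystallized M ∧
      (short M : ℝ) ≤ s / 20)).card + ((crystSet n).filter (fun M => k ≤ short M)).card =
      (crystSet n).card := by
    have h5 := card_filter_add_card_filter_not (s := crystSet n)
      (fun M => (short M : ℝ) ≤ s / 20)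
    rw [← h5]
    congr 1
    · congr 1
      ext M
      unfold crystSet
      rw [mem_filter, mem_filter, mem_filter]
      tauto
    · congr 1
      ext M
      rw [mem_filter, mem_filter]
      refine and_congr_right fun _ => ?_
      rw [hk, Nat.succ_le_iff, Nat.floor_lt (by positivity), not_le]
  unfold cdfY
  have h6 : ((univ.filter (fun M : Mat (Fin (2 * n)) => Crystallized M)).card : ℝ) =
      (crystSet n).card := rfl
  rw [h6, le_div_iff₀ hpos]
  have h7 : ((univ.filter (fun M : Mat (Fin (2 * n)) => Crystallized M ∧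
      (short M : ℝ) ≤ s / 20)).card : ℝ) + (((crystSet n).filter (fun M => k ≤ short M)).card : ℝ) =
      (crystSet n).card := by exact_mod_cast h4
  linarith

lemma cdfY_tendsto : Tendsto (fun n : ℕ => cdfY n (Real.sqrt n / 20)) atTop (𝓝 1) := by
  have hlim : Tendsto (fun n : ℕ => 1 - Real.exp (8 - Real.sqrt n)) atTop (𝓝 1) := by
    have h0 : Tendsto (fun n : ℕ => Real.exp (8 - Real.sqrt n)) atTop (𝓝 0) := by
      refine Real.tendsto_exp_atBot.comp ?_
      have h2 := (tendsto_neg_atTop_atBot.comp sqrt_tendsto)
      have h3 := tendsto_atBot_add_const_left atTop (8 : ℝ) h2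
      refine h3.congr fun n => ?_
      simp only [Function.comp_apply]
      ring
    have := h0.const_sub 1
    rwa [sub_zero] at this
  refine tendsto_of_tendsto_of_tendsto_of_le_of_le' hlim tendsto_const_nhds ?_
    (Eventually.of_forall fun n => cdfY_le_one n _)
  filter_upwards [(Real.tendsto_log_atTop.comp sqrt_tendsto).eventually_ge_atTop 51320] with n hn
  exact cdfY_ge hn

lemma gauss_lt_one (x : ℝ) :
    ProbabilityTheory.cdf (ProbabilityTheory.gaussianReal 0 1) x < 1 := by
  rw [ProbabilityTheory.cdf_eq_real]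
  refine lt_of_le_of_ne MeasureTheory.measureReal_le_one fun h => ?_
  have h1 : (ProbabilityTheory.gaussianReal 0 1) (Set.Iic x)ᶜ = 0 := by
    rw [MeasureTheory.prob_compl_eq_zero_iff measurableSet_Iic]
    have h2 := MeasureTheory.ofReal_measureReal
      (MeasureTheory.measure_ne_top (ProbabilityTheory.gaussianReal 0 1) (Set.Iic x))
    rw [h] at h2
    rw [← h2, ENNReal.ofReal_one]
  have h3 := ProbabilityTheory.gaussianReal_absolutelyContinuous' 0 (v := 1) one_ne_zero h1
  rw [Set.compl_Iic, Real.volume_Ioi] at h3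
  exact ENNReal.top_ne_zero h3

lemma gauss_pos (x : ℝ) :
    0 < ProbabilityTheory.cdf (ProbabilityTheory.gaussianReal 0 1) x := by
  rw [ProbabilityTheory.cdf_eq_real]
  refine lt_of_le_of_ne MeasureTheory.measureReal_nonneg fun h => ?_
  have h1 : (ProbabilityTheory.gaussianReal 0 1) (Set.Iic x) = 0 := by
    have h2 := MeasureTheory.ofReal_measureReal
      (MeasureTheory.measure_ne_top (ProbabilityTheory.gaussianReal 0 1) (Set.Iic x))
    rw [← h] at h2
    rw [← h2, ENNReal.ofReal_zero]
  have h3 := ProbabilityTheory.gaussianReal_absolutelyContinuous' 0 (v := 1) one_ne_zero h1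
  rw [Real.volume_Iic] at h3
  exact ENNReal.top_ne_zero h3

/-- **Result.** The crystallization process of a uniform chord diagram with `n` chords terminates
almost surely; with probability tending to one the number `X_n` of short chords at the end exceeds
`√n / 10`, while the number `Y_n` of short chords of a uniform crystallized diagram is at most
`√n / 20`. Whenever `(Y_n - a_n) / b_n` converges in distribution to the standard normal law,
`(X_n - a_n) / b_n` tends to `+∞` in probability, and in particular does not converge to the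
standard normal law. -/
theorem result :
    (∀ n : ℕ, reach n {M | Crystallized M} = 1) ∧
    Tendsto (fun n : ℕ => cdfX n (Real.sqrt n / 10)) atTop (𝓝 0) ∧
    Tendsto (fun n : ℕ => cdfY n (Real.sqrt n / 20)) atTop (𝓝 1) ∧
    ∀ a b : ℕ → ℝ, (∀ n, 0 < b n) →
      (∀ x : ℝ, Tendsto (fun n => cdfY n (a n + b n * x)) atTop
        (𝓝 (ProbabilityTheory.cdf (ProbabilityTheory.gaussianReal 0 1) x))) →
      (∀ x : ℝ, Tendsto (fun n => cdfX n (a n + b n * x)) atTop (𝓝 0)) ∧
      ¬ ∀ x : ℝ, Tendsto (fun n => cdfX n (a n + b n * x)) atTop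
        (𝓝 (ProbabilityTheory.cdf (ProbabilityTheory.gaussianReal 0 1) x)) := by
  refine ⟨reach_cryst, cdfX_tendsto, cdfY_tendsto, fun a b _ hY => ?_⟩
  have hX : ∀ x : ℝ, Tendsto (fun n => cdfX n (a n + b n * x)) atTop (𝓝 0) := by
    intro x
    have hlt := gauss_lt_one x
    obtain ⟨c, hc1, hc2⟩ := exists_between hlt
    have h1 : ∀ᶠ n in atTop, cdfY n (a n + b n * x) < c := (hY x).eventually_lt_const hc1
    have h2 : ∀ᶠ n : ℕ in atTop, c < cdfY n (Real.sqrt n / 20) :=
      cdfY_tendsto.eventually_const_lt hc2
    refine squeeze_zero' (Eventually.of_forall fun n => cdfX_nonneg n _) ?_ cdfX_tendsto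
    filter_upwards [h1, h2] with n hn1 hn2
    apply cdfX_mono
    have h3 : a n + b n * x ≤ Real.sqrt n / 20 := by
      by_contra hcon
      exact absurd (cdfY_mono n (not_le.1 hcon).le) (not_le.2 (hn1.trans hn2))
    have := Real.sqrt_nonneg (n : ℝ)
    linarith
  refine ⟨hX, fun h => ?_⟩
  have := tendsto_nhds_unique (hX 0) (h 0)
  exact (gauss_pos 0).ne this

end Pool.Agent.Results.MP_9a6fac_co.DifferentLaws
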